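import Mathlib

/-! Project FR4 (MP_953b28_co): the capacity lemma. -/

set_option autoImplicit false

namespace Pool.Agent.Helper19.FR4

/-- The root of the cubic. -/
theorem exP (a c : ℝ) (ha : 0 < a) (hc : 0 ≤ c) :
    ∃ P : ℝ, 0 < P ∧ P < 2 ∧ a ^ 3 * (3 * P ^ 2 + 1) = 2 * P ^ 3 * (a ^ 3 + c ^ 3) := by
  have ha3 : 0 < a ^ 3 := by positivity
  have hc3 : 0 ≤ c ^ 3 := by positivity
  have hcont : ContinuousOn (fun P : ℝ => 2 * P ^ 3 * (a ^ 3 + c ^ 3) - a ^ 3 * (3 * P ^ 2 + 1))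
      (Set.Icc 0 2) := by fun_prop
  have h := intermediate_value_Ioo (by norm_num : (0 : ℝ) ≤ 2) hcont
  have h0 : (0 : ℝ) ∈ Set.Ioo
      ((fun P : ℝ => 2 * P ^ 3 * (a ^ 3 + c ^ 3) - a ^ 3 * (3 * P ^ 2 + 1)) 0)
      ((fun P : ℝ => 2 * P ^ 3 * (a ^ 3 + c ^ 3) - a ^ 3 * (3 * P ^ 2 + 1)) 2) := by
    constructor
    · simp only []
      nlinarith
    · simp only []
      nlinarith
  obtain ⟨P, hP, hP0⟩ := h h0
  refine ⟨P, hP.1, hP.2, ?_⟩
  simp only [] at hP0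
  linarith

/-- If `c^3 (3Q^2+1) ≤ 2 Q^3 (a^3+c^3)` then `3 c (c^2+d^2) ≤ 2 Q (a^3+c^3+d^3)`. -/
theorem one (a c Q d : ℝ) (hc : 0 < c) (hQ : 0 < Q) (hd : 0 ≤ d)
    (h : c ^ 3 * (3 * Q ^ 2 + 1) ≤ 2 * Q ^ 3 * (a ^ 3 + c ^ 3)) :
    3 / 4 * (c ^ 2 + d ^ 2) ≤ Q / (2 * c) * (a ^ 3 + c ^ 3 + d ^ 3) := by
  have hx : 0 ≤ Q * d := by positivity
  -- 3 c (Q d)^2 ≤ c^3 + 2 (Q d)^3
  have h1 : 3 * c * (Q * d) ^ 2 ≤ c ^ 3 + 2 * (Q * d) ^ 3 := by
    have : 0 ≤ (Q * d - c) ^ 2 * (2 * (Q * d) + c) := by positivity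
    nlinarith
  have h2 : 3 * c * (c ^ 2 + d ^ 2) * Q ^ 2 ≤ 2 * Q * (a ^ 3 + c ^ 3 + d ^ 3) * Q ^ 2 := by
    nlinarith
  have h3 : 3 * c * (c ^ 2 + d ^ 2) ≤ 2 * Q * (a ^ 3 + c ^ 3 + d ^ 3) :=
    le_of_mul_le_mul_right h2 (by positivity)
  have e : Q / (2 * c) * (a ^ 3 + c ^ 3 + d ^ 3) =
      2 * Q * (a ^ 3 + c ^ 3 + d ^ 3) / (4 * c) := by
    field_simp
    ring
  rw [e, le_div_iff₀ (by positivity)]
  linarith

/-- The capacity lemma. -/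
theorem cap (a c : ℝ) (ha : 0 ≤ a) (hc : 0 ≤ c) :
    ∃ G H : ℝ, 0 ≤ G ∧ 0 ≤ H ∧ a * G + c * H ≤ 1 ∧
      (0 < a → ∀ b : ℝ, 0 ≤ b → 3 / 4 * (a ^ 2 + b ^ 2) ≤ G * (c ^ 3 + a ^ 3 + b ^ 3)) ∧
      (0 < c → ∀ b : ℝ, 0 ≤ b → 3 / 4 * (c ^ 2 + b ^ 2) ≤ H * (a ^ 3 + c ^ 3 + b ^ 3)) := by
  rcases ha.eq_or_lt with ha0 | ha0
  · rcases hc.eq_or_lt with hc0 | hc0
    · exact ⟨0, 0, le_refl _, le_refl _, by simp, fun h => absurd h (by linarith), fun h =>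
        absurd h (by linarith)⟩
    · obtain ⟨P, hP, hP2, hPe⟩ := exP c a hc0 ha
      refine ⟨0, P / (2 * c), le_refl _, by positivity, ?_, fun h => absurd h (by linarith),
        fun _ b hb => ?_⟩
      · have : c * (P / (2 * c)) = P / 2 := by field_simp
        rw [mul_zero, this]
        linarith
      · exact one a c P b hc0 hP hb (by linarith)
  · obtain ⟨P, hP, hP2, hPe⟩ := exP a c ha0 hc
    rcases hc.eq_or_lt with hc0 | hc0
    · refine ⟨P / (2 * a), 0, by positivity, le_refl _, ?_, fun _ b hb => ?_, fun h =>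
        absurd h (by linarith)⟩
      · have : a * (P / (2 * a)) = P / 2 := by field_simp
        rw [mul_zero, this]
        linarith
      · exact one c a P b ha0 hP hb (by linarith)
    · refine ⟨P / (2 * a), (2 - P) / (2 * c), by positivity,
        div_nonneg (by linarith) (by linarith), ?_, fun _ b hb => ?_, fun _ b hb => ?_⟩
      · have h1 : a * (P / (2 * a)) = P / 2 := by field_simp
        have h2 : c * ((2 - P) / (2 * c)) = (2 - P) / 2 := by field_simp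
        rw [h1, h2]
        linarith
      · exact one c a P b ha0 hP hb (by linarith)
      · refine one a c (2 - P) b hc0 (by linarith) hb ?_
        have ha3 : 0 < a ^ 3 := by positivity
        have hc3 : 0 < c ^ 3 := by positivity
        have hk : 0 < 3 * P ^ 2 + 1 := by positivity
        -- c^3 (3P^2+1) = (a^3+c^3) (3P^2+1-2P^3)
        have e1 : c ^ 3 * (3 * P ^ 2 + 1) = (a ^ 3 + c ^ 3) * (3 * P ^ 2 + 1 - 2 * P ^ 3) := by
          linarith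
        have e2 : (3 * P ^ 2 + 1 - 2 * P ^ 3) * (3 * (2 - P) ^ 2 + 1) -
            2 * (2 - P) ^ 3 * (3 * P ^ 2 + 1) = -3 * (P - 1) ^ 4 := by ring
        have e3 : (3 * P ^ 2 + 1 - 2 * P ^ 3) * (3 * (2 - P) ^ 2 + 1) ≤
            2 * (2 - P) ^ 3 * (3 * P ^ 2 + 1) := by
          have : 0 ≤ (P - 1) ^ 4 := by positivity
          linarith
        have e4 : c ^ 3 * (3 * (2 - P) ^ 2 + 1) * (3 * P ^ 2 + 1) ≤
            2 * (2 - P) ^ 3 * (a ^ 3 + c ^ 3) * (3 * P ^ 2 + 1) := by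
          calc c ^ 3 * (3 * (2 - P) ^ 2 + 1) * (3 * P ^ 2 + 1)
              = (a ^ 3 + c ^ 3) * ((3 * P ^ 2 + 1 - 2 * P ^ 3) * (3 * (2 - P) ^ 2 + 1)) := by
                rw [mul_right_comm, e1]
                ring
            _ ≤ (a ^ 3 + c ^ 3) * (2 * (2 - P) ^ 3 * (3 * P ^ 2 + 1)) :=
                mul_le_mul_of_nonneg_left e3 (by positivity)
            _ = _ := by ring
        exact le_of_mul_le_mul_right e4 hk

end Pool.Agent.Helper19.FR4
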