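import Pool.Agent.Helper19.FR4.Fo

/-! Project FR4 (MP_953b28_co): the fractional theorem with weights. -/

set_option autoImplicit false

namespace Pool.Agent.Helper19.FR4

open Finset Filter Topology

section

variable {n : ℕ}

/-- Triangles of the tripartite graph. -/
def Tr (A B C : Finset (Fin n × Fin n)) (r c s : Fin n) : Prop :=
  (r, c) ∈ A ∧ (c, s) ∈ B ∧ (s, r) ∈ C

/-- Packings: values in `[0, M]`, on the triangles only, with loads at most `w`. -/
def Pk (A B C : Finset (Fin n × Fin n)) (wA wB wC : Fin n → Fin n → ℝ) (M : ℝ)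
    (y : Fin n → Fin n → Fin n → ℝ) : Prop :=
  (∀ r c s, 0 ≤ y r c s) ∧ (∀ r c s, y r c s ≤ M) ∧ (∀ r c s, ¬ Tr A B C r c s → y r c s = 0) ∧
  (∀ r c, ∑ s, y r c s ≤ wA r c) ∧ (∀ c s, ∑ r, y r c s ≤ wB c s) ∧
  ∀ s r, ∑ c, y r c s ≤ wC s r

/-- The functional. -/
noncomputable def Fn (dR dC dS : Fin n → ℝ) (y : Fin n → Fin n → Fin n → ℝ) : ℝ :=
  ∑ r, (dR r - ∑ c, ∑ s, y r c s) ^ 4 + ∑ c, (dC c - ∑ r, ∑ s, y r c s) ^ 4 +
    ∑ s, (dS s - ∑ r, ∑ c, y r c s) ^ 4

/-- A minimiser. -/
theorem exMin (A B C : Finset (Fin n × Fin n)) (wA wB wC : Fin n → Fin n → ℝ) (M : ℝ)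
    (hM : 0 ≤ M) (hA : ∀ r c, 0 ≤ wA r c) (hB : ∀ c s, 0 ≤ wB c s) (hC : ∀ s r, 0 ≤ wC s r)
    (dR dC dS : Fin n → ℝ) :
    ∃ y, Pk A B C wA wB wC M y ∧
      ∀ y', Pk A B C wA wB wC M y' → Fn dR dC dS y ≤ Fn dR dC dS y' := by
  set K : Set (Fin n → Fin n → Fin n → ℝ) := {y | Pk A B C wA wB wC M y} with hK
  have hne : K.Nonempty := ⟨0, fun _ _ _ => le_refl _, fun _ _ _ => hM, fun _ _ _ _ => rfl,
    fun r c => by simpa using hA r c, fun c s => by simpa using hB c s,
    fun s r => by simpa using hC s r⟩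
  have hcl : IsClosed K := by
    simp only [hK, Pk, Set.setOf_and, Set.setOf_forall]
    refine IsClosed.inter ?_ (IsClosed.inter ?_ (IsClosed.inter ?_ (IsClosed.inter ?_
      (IsClosed.inter ?_ ?_))))
    · exact isClosed_iInter fun r => isClosed_iInter fun c => isClosed_iInter fun s =>
        isClosed_le continuous_const (by fun_prop)
    · exact isClosed_iInter fun r => isClosed_iInter fun c => isClosed_iInter fun s =>
        isClosed_le (by fun_prop) continuous_const
    · exact isClosed_iInter fun r => isClosed_iInter fun c => isClosed_iInter fun s =>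
        isClosed_iInter fun _ => isClosed_eq (by fun_prop) continuous_const
    · exact isClosed_iInter fun r => isClosed_iInter fun c =>
        isClosed_le (by fun_prop) continuous_const
    · exact isClosed_iInter fun r => isClosed_iInter fun c =>
        isClosed_le (by fun_prop) continuous_const
    · exact isClosed_iInter fun r => isClosed_iInter fun c =>
        isClosed_le (by fun_prop) continuous_const
  have hcomp : IsCompact (Set.pi Set.univ fun _ : Fin n => Set.pi Set.univ fun _ : Fin n =>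
      Set.pi Set.univ fun _ : Fin n => Set.Icc (0 : ℝ) M) :=
    isCompact_univ_pi fun _ => isCompact_univ_pi fun _ => isCompact_univ_pi fun _ =>
      isCompact_Icc
  have hKc : IsCompact K := hcomp.of_isClosed_subset hcl (by
    intro y hy
    simp only [Set.mem_pi, Set.mem_univ, forall_true_left]
    exact fun r c s => ⟨hy.1 r c s, hy.2.1 r c s⟩)
  have hF : ContinuousOn (Fn dR dC dS) K := by
    apply Continuous.continuousOn
    unfold Fn
    fun_prop
  obtain ⟨y, hy, hmin⟩ := hKc.exists_isMinOn hne hF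
  exact ⟨y, hy, fun y' hy' => hmin hy'⟩

end

end Pool.Agent.Helper19.FR4
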