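import Pool.Agent.Helper19.FR4.Main
import Pool.Agent.Helper93.FRD.St

/-! Project FR4 (MP_953b28_co): the statement FRD of the group follows from `core`. -/

set_option autoImplicit false

namespace Pool.Agent.Helper19.FR4

open Finset

theorem hFRD : Pool.Agent.Helper93.FRD.FRD := by
  intro n A B C wA wB wC M η D t j hη hη1 hM hj hA hB hC c1 c2 c3 d1 d2 d3 tA tB tC hD
  obtain ⟨y, y0, yM, yT, lA, lB, lC⟩ := core A B C wA wB wC (fun a => ∑ b, wA a b)
    (fun b => ∑ c, wB b c) (fun c => ∑ a, wC c a) M (1 - η) j D t hM (by linarith)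
    hA.1 hA.2 hB.1 hB.2 hC.1 hC.2 (fun a => rfl) c2 (fun b => rfl) c3 (fun c => rfl)
    (fun a => (c1 a).symm) d1 d2 d3
    (fun a b h S hS => (tA a b h).trans (by
      exact_mod_cast Finset.card_le_card fun c hc => hS c (Finset.mem_filter.1 hc).2))
    (fun b c h S hS => (tB b c h).trans (by
      exact_mod_cast Finset.card_le_card fun a hc => hS a (Finset.mem_filter.1 hc).2))
    (fun c a h S hS => (tC c a h).trans (by
      exact_mod_cast Finset.card_le_card fun b hc => hS b (Finset.mem_filter.1 hc).2))
    (fun i hi => by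
      by_contra hij
      have h1 : (j : ℝ) + 1 ≤ i := by
        have : j + 1 ≤ i := by
          have h2 : (j : ℝ) < i := not_le.1 hij
          exact_mod_cast h2
        exact_mod_cast this
      nlinarith) hD
  exact ⟨y, fun a b c => ⟨y0 a b c, yM a b c⟩, yT, lA, lB, lC⟩

end Pool.Agent.Helper19.FR4
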