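import Pool.Agent.Helper19.FR4.Cap

/-! Project FR4 (MP_953b28_co): first order condition and loads. -/

set_option autoImplicit false

namespace Pool.Agent.Helper19.FR4

open Finset Filter Topology

/-- The first order condition for `∑ δ^4`. -/
theorem fo {ι : Type*} [Fintype ι] (ρ t : ι → ℝ)
    (h : ∀ᶠ e in 𝓝[>] (0 : ℝ), ∑ i, ρ i ^ 4 ≤ ∑ i, (ρ i - e * t i) ^ 4) :
    ∑ i, ρ i ^ 3 * t i ≤ 0 := by
  by_contra hT
  push Not at hT
  set T := ∑ i, ρ i ^ 3 * t i with hTdef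
  set K := ∑ i, (6 * ρ i ^ 2 * t i ^ 2 + 4 * (|ρ i| * |t i| ^ 3) + t i ^ 4) with hK
  have hK0 : 0 ≤ K := Finset.sum_nonneg fun i _ => by positivity
  have h1 : ∀ᶠ e in 𝓝[>] (0 : ℝ), e < min 1 (T / (K + 1)) := by
    have : (0 : ℝ) < min 1 (T / (K + 1)) := lt_min one_pos (by positivity)
    exact (eventually_lt_nhds this).filter_mono nhdsWithin_le_nhds
  have h2 : ∀ᶠ e in 𝓝[>] (0 : ℝ), (0 : ℝ) < e := eventually_mem_nhdsWithin
  obtain ⟨e, he, he1, he0⟩ := (h.and (h1.and h2)).exists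
  have e1 : e < 1 := lt_of_lt_of_le he1 (min_le_left _ _)
  have e2 : e * (K + 1) < T := by
    have := lt_of_lt_of_le he1 (min_le_right _ _)
    rwa [lt_div_iff₀ (by positivity)] at this
  have hi : ∀ i, (ρ i - e * t i) ^ 4 ≤ ρ i ^ 4 - 4 * e * (ρ i ^ 3 * t i) +
      e ^ 2 * (6 * ρ i ^ 2 * t i ^ 2 + 4 * (|ρ i| * |t i| ^ 3) + t i ^ 4) := by
    intro i
    have a1 : -(ρ i * t i ^ 3) ≤ |ρ i| * |t i| ^ 3 := by
      rw [← abs_pow, ← abs_mul]
      exact neg_le_abs _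
    have a2 : -(ρ i * t i ^ 3) * e ≤ |ρ i| * |t i| ^ 3 * 1 := by
      rcases le_or_gt 0 (-(ρ i * t i ^ 3)) with hs | hs
      · exact mul_le_mul a1 e1.le he0.le (by positivity)
      · have : -(ρ i * t i ^ 3) * e ≤ 0 := mul_nonpos_of_nonpos_of_nonneg hs.le he0.le
        have : 0 ≤ |ρ i| * |t i| ^ 3 := by positivity
        linarith
    have a3 : t i ^ 4 * e ^ 2 ≤ t i ^ 4 * 1 := by
      refine mul_le_mul_of_nonneg_left ?_ (by positivity)
      nlinarith
    have a4 : (ρ i - e * t i) ^ 4 = ρ i ^ 4 - 4 * e * (ρ i ^ 3 * t i) +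
        e ^ 2 * (6 * ρ i ^ 2 * t i ^ 2 + 4 * (-(ρ i * t i ^ 3) * e) + t i ^ 4 * e ^ 2) := by ring
    rw [a4]
    have : 0 ≤ e ^ 2 := by positivity
    nlinarith
  have hs : ∑ i, (ρ i - e * t i) ^ 4 ≤ ∑ i, ρ i ^ 4 - 4 * e * T + e ^ 2 * K := by
    refine (Finset.sum_le_sum fun i _ => hi i).trans (le_of_eq ?_)
    rw [Finset.sum_add_distrib, Finset.sum_sub_distrib, hTdef, hK, Finset.mul_sum, Finset.mul_sum]
  have : e * (4 * T - e * K) ≤ 0 := by nlinarith
  have h3 : 0 < 4 * T - e * K := by nlinarith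
  nlinarith [mul_pos he0 h3]

/-- One linear constraint along the segment. -/
theorem ev (a a' b : ℝ) (h : a ≤ b) (h' : a = b → a' ≤ b) :
    ∀ᶠ e in 𝓝[>] (0 : ℝ), (1 - e) * a + e * a' ≤ b := by
  rcases h.eq_or_lt with h1 | h1
  · have h2 : ∀ᶠ e in 𝓝[>] (0 : ℝ), (0 : ℝ) < e := eventually_mem_nhdsWithin
    filter_upwards [h2] with e he
    have := h' h1
    have : e * a' ≤ e * b := mul_le_mul_of_nonneg_left this he.le
    rw [h1]
    linarith
  · have hc : Continuous fun e : ℝ => (1 - e) * a + e * a' := by fun_prop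
    have h2 : Tendsto (fun e : ℝ => (1 - e) * a + e * a') (𝓝[>] 0) (𝓝 a) := by
      have := hc.tendsto 0
      simp only [sub_zero, one_mul, zero_mul, add_zero] at this
      exact this.mono_left nhdsWithin_le_nhds
    filter_upwards [h2.eventually (eventually_lt_nhds h1)] with e he using he.le

/-- The load of `y'` on an edge without deficit. -/
theorem load1 {n : ℕ} (p q x z : Fin n → ℝ) (a c ω : ℝ) (hω : 0 ≤ ω) (hp : ∀ s, 0 ≤ p s)
    (hq : ∀ s, 0 ≤ q s) (hx : ∀ s, 0 ≤ x s) (sp : ∑ s, p s = a) (sq : ∑ s, q s = c)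
    (hz : ∀ s, z s ≤ ω * (3 / 4 * ((p s * (a ^ 2 + x s ^ 2) + q s * (x s ^ 2 + c ^ 2)) /
      (a ^ 3 + c ^ 3 + x s ^ 3)))) : ∑ s, z s ≤ ω := by
  have ha : 0 ≤ a := sp ▸ Finset.sum_nonneg fun s _ => hp s
  have hc : 0 ≤ c := sq ▸ Finset.sum_nonneg fun s _ => hq s
  obtain ⟨G, H, hG, hH, hGH, h1, h2⟩ := cap a c ha hc
  have key : ∀ s, 3 / 4 * ((p s * (a ^ 2 + x s ^ 2) + q s * (x s ^ 2 + c ^ 2)) /
      (a ^ 3 + c ^ 3 + x s ^ 3)) ≤ p s * G + q s * H := by
    intro s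
    have hxs := hx s
    have k1 : 3 / 4 * (p s * (a ^ 2 + x s ^ 2)) ≤ p s * G * (a ^ 3 + c ^ 3 + x s ^ 3) := by
      rcases (hp s).eq_or_lt with h0 | h0
      · rw [← h0]
        simp
      · have : 0 < a := by
          rw [← sp]
          exact Finset.sum_pos' (fun s _ => hp s) ⟨s, Finset.mem_univ _, h0⟩
        have := mul_le_mul_of_nonneg_left (h1 this (x s) hxs) (hp s)
        nlinarith
    have k2 : 3 / 4 * (q s * (x s ^ 2 + c ^ 2)) ≤ q s * H * (a ^ 3 + c ^ 3 + x s ^ 3) := by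
      rcases (hq s).eq_or_lt with h0 | h0
      · rw [← h0]
        simp
      · have : 0 < c := by
          rw [← sq]
          exact Finset.sum_pos' (fun s _ => hq s) ⟨s, Finset.mem_univ _, h0⟩
        have := mul_le_mul_of_nonneg_left (h2 this (x s) hxs) (hq s)
        nlinarith
    have hU : 0 ≤ a ^ 3 + c ^ 3 + x s ^ 3 := by positivity
    have hR : 0 ≤ p s * G + q s * H :=
      add_nonneg (mul_nonneg (hp s) hG) (mul_nonneg (hq s) hH)
    rcases hU.eq_or_lt with h0 | h0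
    · rw [← h0, div_zero, mul_zero]
      exact hR
    · rw [← mul_div_assoc, div_le_iff₀ h0]
      nlinarith
  calc ∑ s, z s ≤ ∑ s, ω * (p s * G + q s * H) :=
        Finset.sum_le_sum fun s _ => (hz s).trans (mul_le_mul_of_nonneg_left (key s) hω)
    _ = ω * (a * G + c * H) := by
        rw [← Finset.mul_sum, Finset.sum_add_distrib, ← Finset.sum_mul, ← Finset.sum_mul, sp, sq]
    _ ≤ ω * 1 := mul_le_mul_of_nonneg_left hGH hω
    _ = ω := mul_one ω

end Pool.Agent.Helper19.FR4
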