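import Pool.Agent.Helper19.FR4.Val

/-! Project FR4 (MP_953b28_co): the fractional theorem with weights, main part. -/

set_option autoImplicit false

namespace Pool.Agent.Helper19.FR4

open Finset Filter Topology

section

variable {n : ℕ}

theorem convSum (f g : Fin n → ℝ) (e : ℝ) :
    ∑ s, ((1 - e) * f s + e * g s) = (1 - e) * ∑ s, f s + e * ∑ s, g s := by
  rw [Finset.sum_add_distrib, Finset.mul_sum, Finset.mul_sum]

/-- At least `t0 - m` of the triangles on an edge are not saturated. -/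
theorem unsat (P : Fin n → Prop) (y : Fin n → ℝ) (M m t0 : ℝ) (hy : ∀ s, 0 ≤ y s)
    (hyM : ∀ s, y s ≤ M) (hs : ∑ s, y s ≤ 1) (hm : ∀ j : ℕ, (j : ℝ) * M ≤ 1 → (j : ℝ) ≤ m)
    (ht : ∀ S : Finset (Fin n), (∀ s, P s → s ∈ S) → t0 ≤ (S.card : ℝ))
    (χ : Fin n → ℝ) (h1 : ∀ s, P s → y s < M → χ s = 1) (h0 : ∀ s, 0 ≤ χ s) :
    t0 - m ≤ ∑ s, χ s := by
  classical
  set S1 := univ.filter fun s => y s < M with hS1
  set S2 := univ.filter fun s => ¬ y s < M with hS2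
  have hc2 : (S2.card : ℝ) ≤ m := by
    apply hm
    have : ∑ s ∈ S2, M ≤ ∑ s, y s := by
      refine (Finset.sum_le_sum fun s hs => ?_).trans
        (Finset.sum_le_sum_of_subset_of_nonneg (Finset.subset_univ S2) fun s _ _ => hy s)
      have := (Finset.mem_filter.1 hs).2
      linarith
    rw [Finset.sum_const, nsmul_eq_mul] at this
    linarith
  set S := (univ.filter fun s => χ s = 1) ∪ S2 with hS
  have hcard : t0 ≤ (S.card : ℝ) := by
    apply ht
    intro s hs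
    by_cases h : y s < M
    · exact Finset.mem_union_left _ (Finset.mem_filter.2 ⟨Finset.mem_univ _, h1 s hs h⟩)
    · exact Finset.mem_union_right _ (Finset.mem_filter.2 ⟨Finset.mem_univ _, h⟩)
  have hU : (S.card : ℝ) ≤ ((univ.filter fun s => χ s = 1).card : ℝ) + S2.card := by
    exact_mod_cast Finset.card_union_le _ _
  have hχ : ((univ.filter fun s => χ s = 1).card : ℝ) ≤ ∑ s, χ s := by
    calc ((univ.filter fun s => χ s = 1).card : ℝ) = ∑ s ∈ univ.filter fun s => χ s = 1, χ s := by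
          rw [Finset.card_eq_sum_ones]
          push_cast
          exact Finset.sum_congr rfl fun s hs => ((Finset.mem_filter.1 hs).2).symm
      _ ≤ ∑ s, χ s :=
          Finset.sum_le_sum_of_subset_of_nonneg (Finset.subset_univ _) fun s _ _ => h0 s
  linarith

theorem core (A B C : Finset (Fin n × Fin n)) (wA wB wC : Fin n → Fin n → ℝ)
    (dR dC dS : Fin n → ℝ) (M ω m D t0 : ℝ) (hM : 0 < M) (hω : 0 ≤ ω)
    (hA : ∀ r c, (r, c) ∈ A → ω ≤ wA r c ∧ wA r c ≤ 1) (hA0 : ∀ r c, (r, c) ∉ A → wA r c = 0)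
    (hB : ∀ c s, (c, s) ∈ B → ω ≤ wB c s ∧ wB c s ≤ 1) (hB0 : ∀ c s, (c, s) ∉ B → wB c s = 0)
    (hC : ∀ s r, (s, r) ∈ C → ω ≤ wC s r ∧ wC s r ≤ 1) (hC0 : ∀ s r, (s, r) ∉ C → wC s r = 0)
    (sA : ∀ r, ∑ c, wA r c = dR r) (sA' : ∀ c, ∑ r, wA r c = dC c)
    (sB : ∀ c, ∑ s, wB c s = dC c) (sB' : ∀ s, ∑ c, wB c s = dS s)
    (sC : ∀ s, ∑ r, wC s r = dS s) (sC' : ∀ r, ∑ s, wC s r = dR r)
    (dR1 : ∀ r, dR r ≤ D) (dC1 : ∀ c, dC c ≤ D) (dS1 : ∀ s, dS s ≤ D)
    (tA : ∀ r c, (r, c) ∈ A → ∀ S : Finset (Fin n), (∀ s, (c, s) ∈ B ∧ (s, r) ∈ C → s ∈ S) →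
      t0 ≤ (S.card : ℝ))
    (tB : ∀ c s, (c, s) ∈ B → ∀ S : Finset (Fin n), (∀ r, (s, r) ∈ C ∧ (r, c) ∈ A → r ∈ S) →
      t0 ≤ (S.card : ℝ))
    (tC : ∀ s r, (s, r) ∈ C → ∀ S : Finset (Fin n), (∀ c, (r, c) ∈ A ∧ (c, s) ∈ B → c ∈ S) →
      t0 ≤ (S.card : ℝ))
    (hm : ∀ j : ℕ, (j : ℝ) * M ≤ 1 → (j : ℝ) ≤ m) (hD : D ≤ 3 / 2 * ω * (t0 - m)) :
    ∃ y : Fin n → Fin n → Fin n → ℝ, (∀ r c s, 0 ≤ y r c s) ∧ (∀ r c s, y r c s ≤ M) ∧
      (∀ r c s, ¬ Tr A B C r c s → y r c s = 0) ∧ (∀ r c, ∑ s, y r c s = wA r c) ∧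
      (∀ c s, ∑ r, y r c s = wB c s) ∧ ∀ s r, ∑ c, y r c s = wC s r := by
  classical
  have wA0 : ∀ r c, 0 ≤ wA r c := fun r c => by
    by_cases h : (r, c) ∈ A
    · linarith [(hA r c h).1]
    · rw [hA0 r c h]
  have wB0 : ∀ r c, 0 ≤ wB r c := fun r c => by
    by_cases h : (r, c) ∈ B
    · linarith [(hB r c h).1]
    · rw [hB0 r c h]
  have wC0 : ∀ r c, 0 ≤ wC r c := fun r c => by
    by_cases h : (r, c) ∈ C
    · linarith [(hC r c h).1]
    · rw [hC0 r c h]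
  obtain ⟨y, hy, hmin⟩ := exMin A B C wA wB wC M hM.le wA0 wB0 wC0 dR dC dS
  obtain ⟨y0, yM, yT, lA, lB, lC⟩ := hy
  -- deficits
  set θA : Fin n → Fin n → ℝ := fun r c => wA r c - ∑ s, y r c s with hθA
  set θB : Fin n → Fin n → ℝ := fun c s => wB c s - ∑ r, y r c s with hθB
  set θC : Fin n → Fin n → ℝ := fun s r => wC s r - ∑ c, y r c s with hθC
  set ρ : Fin n → ℝ := fun r => dR r - ∑ c, ∑ s, y r c s with hρ
  set κ : Fin n → ℝ := fun c => dC c - ∑ r, ∑ s, y r c s with hκ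
  set σ : Fin n → ℝ := fun s => dS s - ∑ r, ∑ c, y r c s with hσ
  have pA : ∀ r c, 0 ≤ θA r c := fun r c => sub_nonneg.2 (lA r c)
  have pB : ∀ r c, 0 ≤ θB r c := fun r c => sub_nonneg.2 (lB r c)
  have pC : ∀ r c, 0 ≤ θC r c := fun r c => sub_nonneg.2 (lC r c)
  have tsA : ∀ r, ∑ c, θA r c = ρ r := fun r => by
    simp only [hθA, hρ, Finset.sum_sub_distrib, sA]
  have tsA' : ∀ c, ∑ r, θA r c = κ c := fun c => by
    simp only [hθA, hκ, Finset.sum_sub_distrib, sA']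
  have tsB : ∀ c, ∑ s, θB c s = κ c := fun c => by
    simp only [hθB, hκ, Finset.sum_sub_distrib, sB]
    rw [Finset.sum_comm]
  have tsB' : ∀ s, ∑ c, θB c s = σ s := fun s => by
    simp only [hθB, hσ, Finset.sum_sub_distrib, sB']
    rw [Finset.sum_comm]
  have tsC : ∀ s, ∑ r, θC s r = σ s := fun s => by
    simp only [hθC, hσ, Finset.sum_sub_distrib, sC]
  have tsC' : ∀ r, ∑ s, θC s r = ρ r := fun r => by
    simp only [hθC, hρ, Finset.sum_sub_distrib, sC']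
    rw [Finset.sum_comm]
  have pρ : ∀ r, 0 ≤ ρ r := fun r => tsA r ▸ Finset.sum_nonneg fun c _ => pA r c
  have pκ : ∀ r, 0 ≤ κ r := fun r => tsB r ▸ Finset.sum_nonneg fun c _ => pB r c
  have pσ : ∀ r, 0 ≤ σ r := fun r => tsC r ▸ Finset.sum_nonneg fun c _ => pC r c
  -- the direction
  set χ : Fin n → Fin n → Fin n → ℝ := fun r c s =>
    if Tr A B C r c s ∧ y r c s < M then 1 else 0 with hχ
  set y' : Fin n → Fin n → Fin n → ℝ := fun r c s =>
    χ r c s * (ω * (3 / 4 * (Nu θA θB θC ρ κ σ r c s / (ρ r ^ 3 + κ c ^ 3 + σ s ^ 3)))) with hy'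
  have χ0 : ∀ r c s, 0 ≤ χ r c s := fun r c s => by
    simp only [hχ]
    split_ifs <;> norm_num
  have χ1 : ∀ r c s, χ r c s ≤ 1 := fun r c s => by
    simp only [hχ]
    split_ifs <;> norm_num
  have Nu0 : ∀ r c s, 0 ≤ Nu θA θB θC ρ κ σ r c s := fun r c s => by
    unfold Nu
    have a1 := pA r c
    have a2 := pB c s
    have a3 := pC s r
    positivity
  have Z0 : ∀ r c s, 0 ≤ ω * (3 / 4 * (Nu θA θB θC ρ κ σ r c s /
      (ρ r ^ 3 + κ c ^ 3 + σ s ^ 3))) := fun r c s => by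
    have a1 := pow_nonneg (pρ r) 3
    have a2 := pow_nonneg (pκ c) 3
    have a3 := pow_nonneg (pσ s) 3
    have := div_nonneg (Nu0 r c s) (by linarith : 0 ≤ ρ r ^ 3 + κ c ^ 3 + σ s ^ 3)
    positivity
  have y'0 : ∀ r c s, 0 ≤ y' r c s := fun r c s => mul_nonneg (χ0 r c s) (Z0 r c s)
  have y'1 : ∀ r c s, y' r c s ≤ ω * (3 / 4 * (Nu θA θB θC ρ κ σ r c s /
      (ρ r ^ 3 + κ c ^ 3 + σ s ^ 3))) := fun r c s =>
    mul_le_of_le_one_left (Z0 r c s) (χ1 r c s)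
  have y'T : ∀ r c s, ¬ Tr A B C r c s → y' r c s = 0 := fun r c s h => by
    simp only [hy', hχ]
    rw [if_neg fun h' => h h'.1, zero_mul]
  have y'M : ∀ r c s, y r c s = M → y' r c s = 0 := fun r c s h => by
    simp only [hy', hχ]
    rw [if_neg fun h' => by linarith [h'.2], zero_mul]
  -- loads of the direction
  have LA : ∀ r c, ∑ s, y r c s = wA r c → ∑ s, y' r c s ≤ wA r c := fun r c h => by
    by_cases hrc : (r, c) ∈ A
    · refine le_trans ?_ (hA r c hrc).1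
      refine load1 (fun s => θB c s) (fun s => θC s r) σ _ (κ c) (ρ r) ω hω (fun s => pB c s)
        (fun s => pC s r) pσ (tsB c) (tsC' r) fun s => (y'1 r c s).trans (le_of_eq ?_)
      have h0 : θA r c = 0 := by simp only [hθA, h, sub_self]
      have e1 : Nu θA θB θC ρ κ σ r c s = θB c s * (κ c ^ 2 + σ s ^ 2) +
          θC s r * (σ s ^ 2 + ρ r ^ 2) := by
        unfold Nu
        rw [h0]
        ring
      rw [e1, add_comm (ρ r ^ 3) (κ c ^ 3)]
    · rw [hA0 r c hrc]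
      exact le_of_eq (Finset.sum_eq_zero fun s _ => y'T r c s fun h' => hrc h'.1)
  have LB : ∀ c s, ∑ r, y r c s = wB c s → ∑ r, y' r c s ≤ wB c s := fun c s h => by
    by_cases hrc : (c, s) ∈ B
    · refine le_trans ?_ (hB c s hrc).1
      refine load1 (fun r => θC s r) (fun r => θA r c) ρ _ (σ s) (κ c) ω hω (fun r => pC s r)
        (fun r => pA r c) pρ (tsC s) (tsA' c) fun r => (y'1 r c s).trans (le_of_eq ?_)
      have h0 : θB c s = 0 := by simp only [hθB, h, sub_self]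
      have e1 : Nu θA θB θC ρ κ σ r c s = θC s r * (σ s ^ 2 + ρ r ^ 2) +
          θA r c * (ρ r ^ 2 + κ c ^ 2) := by
        unfold Nu
        rw [h0]
        ring
      have e2 : ρ r ^ 3 + κ c ^ 3 + σ s ^ 3 = σ s ^ 3 + κ c ^ 3 + ρ r ^ 3 := by ring
      rw [e1, e2]
    · rw [hB0 c s hrc]
      exact le_of_eq (Finset.sum_eq_zero fun r _ => y'T r c s fun h' => hrc h'.2.1)
  have LC : ∀ s r, ∑ c, y r c s = wC s r → ∑ c, y' r c s ≤ wC s r := fun s r h => by
    by_cases hrc : (s, r) ∈ C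
    · refine le_trans ?_ (hC s r hrc).1
      refine load1 (fun c => θA r c) (fun c => θB c s) κ _ (ρ r) (σ s) ω hω (fun c => pA r c)
        (fun c => pB c s) pκ (tsA r) (tsB' s) fun c => (y'1 r c s).trans (le_of_eq ?_)
      have h0 : θC s r = 0 := by simp only [hθC, h, sub_self]
      have e1 : Nu θA θB θC ρ κ σ r c s = θA r c * (ρ r ^ 2 + κ c ^ 2) +
          θB c s * (κ c ^ 2 + σ s ^ 2) := by
        unfold Nu
        rw [h0]
        ring
      have e2 : ρ r ^ 3 + κ c ^ 3 + σ s ^ 3 = ρ r ^ 3 + σ s ^ 3 + κ c ^ 3 := by ring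
      rw [e1, e2]
    · rw [hC0 s r hrc]
      exact le_of_eq (Finset.sum_eq_zero fun c _ => y'T r c s fun h' => hrc h'.2.2)
  -- admissibility
  have adm : ∀ᶠ e in 𝓝[>] (0 : ℝ),
      Pk A B C wA wB wC M (fun r c s => (1 - e) * y r c s + e * y' r c s) := by
    have h2 : ∀ᶠ e in 𝓝[>] (0 : ℝ), (0 : ℝ) < e := eventually_mem_nhdsWithin
    have h1 : ∀ᶠ e in 𝓝[>] (0 : ℝ), e < (1 : ℝ) :=
      (eventually_lt_nhds one_pos).filter_mono nhdsWithin_le_nhds
    have hMe : ∀ᶠ e in 𝓝[>] (0 : ℝ), ∀ r c s, (1 - e) * y r c s + e * y' r c s ≤ M := by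
      rw [Filter.eventually_all]
      intro r
      rw [Filter.eventually_all]
      intro c
      rw [Filter.eventually_all]
      intro s
      exact ev _ _ _ (yM r c s) fun h => by
        rw [y'M r c s h]
        exact hM.le
    have hAe : ∀ᶠ e in 𝓝[>] (0 : ℝ), ∀ r c,
        (1 - e) * ∑ s, y r c s + e * ∑ s, y' r c s ≤ wA r c := by
      rw [Filter.eventually_all]
      intro r
      rw [Filter.eventually_all]
      intro c
      exact ev _ _ _ (lA r c) (LA r c)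
    have hBe : ∀ᶠ e in 𝓝[>] (0 : ℝ), ∀ c s,
        (1 - e) * ∑ r, y r c s + e * ∑ r, y' r c s ≤ wB c s := by
      rw [Filter.eventually_all]
      intro r
      rw [Filter.eventually_all]
      intro c
      exact ev _ _ _ (lB r c) (LB r c)
    have hCe : ∀ᶠ e in 𝓝[>] (0 : ℝ), ∀ s r,
        (1 - e) * ∑ c, y r c s + e * ∑ c, y' r c s ≤ wC s r := by
      rw [Filter.eventually_all]
      intro r
      rw [Filter.eventually_all]
      intro c
      exact ev _ _ _ (lC r c) (LC r c)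
    filter_upwards [h2, h1, hMe, hAe, hBe, hCe] with e e0 e1 eM eA eB eC
    refine ⟨fun r c s => add_nonneg (mul_nonneg (by linarith) (y0 r c s))
      (mul_nonneg e0.le (y'0 r c s)), eM, fun r c s h => ?_, fun r c => ?_, fun c s => ?_,
      fun s r => ?_⟩
    · show (1 - e) * y r c s + e * y' r c s = 0
      rw [yT r c s h, y'T r c s h]
      ring
    · show ∑ s, ((1 - e) * y r c s + e * y' r c s) ≤ wA r c
      rw [convSum]
      exact eA r c
    · show ∑ r, ((1 - e) * y r c s + e * y' r c s) ≤ wB c s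
      rw [convSum]
      exact eB c s
    · show ∑ c, ((1 - e) * y r c s + e * y' r c s) ≤ wC s r
      rw [convSum]
      exact eC s r
  -- first order condition
  set tR : Fin n → ℝ := fun r => ∑ c, ∑ s, y' r c s - ∑ c, ∑ s, y r c s with htR
  set tC' : Fin n → ℝ := fun c => ∑ r, ∑ s, y' r c s - ∑ r, ∑ s, y r c s with htC
  set tS : Fin n → ℝ := fun s => ∑ r, ∑ c, y' r c s - ∑ r, ∑ c, y r c s with htS
  have dsum : ∀ (f g : Fin n → Fin n → ℝ) (e : ℝ), ∑ c, ∑ s, ((1 - e) * f c s + e * g c s) =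
      (1 - e) * ∑ c, ∑ s, f c s + e * ∑ c, ∑ s, g c s := fun f g e => by
    simp only [convSum]
  have hfo := fo (ι := Fin n ⊕ (Fin n ⊕ Fin n)) (Sum.elim ρ (Sum.elim κ σ))
    (Sum.elim tR (Sum.elim tC' tS)) (by
      filter_upwards [adm] with e he
      have h1 := hmin _ he
      simp only [Fn, dsum] at h1
      simp only [Fintype.sum_sum_type, Sum.elim_inl, Sum.elim_inr]
      have f1 : ∀ r, (dR r - ((1 - e) * ∑ c, ∑ s, y r c s + e * ∑ c, ∑ s, y' r c s)) =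
          ρ r - e * tR r := fun r => by
        simp only [hρ, htR]
        ring
      have f2 : ∀ c, (dC c - ((1 - e) * ∑ r, ∑ s, y r c s + e * ∑ r, ∑ s, y' r c s)) =
          κ c - e * tC' c := fun r => by
        simp only [hκ, htC]
        ring
      have f3 : ∀ s, (dS s - ((1 - e) * ∑ r, ∑ c, y r c s + e * ∑ r, ∑ c, y' r c s)) =
          σ s - e * tS s := fun r => by
        simp only [hσ, htS]
        ring
      simp only [f1, f2, f3] at h1
      linarith)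
  simp only [Fintype.sum_sum_type, Sum.elim_inl, Sum.elim_inr] at hfo
  -- value
  have hval := val χ θA θB θC ρ κ σ ω (t0 - m) hω pA pB pC pρ pκ pσ tsA tsA' tsB tsB' tsC tsC'
    (fun r c h => by
      have hrc : (r, c) ∈ A := by
        by_contra hrc
        apply h
        simp only [hθA]
        rw [hA0 r c hrc, Finset.sum_eq_zero fun s _ => yT r c s fun h' => hrc h'.1, sub_zero]
      refine unsat (fun s => (c, s) ∈ B ∧ (s, r) ∈ C) (fun s => y r c s) M m t0 (y0 r c) (yM r c)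
        ((lA r c).trans (hA r c hrc).2) hm (tA r c hrc) (fun s => χ r c s) (fun s h1 h2 => ?_)
        (χ0 r c)
      simp only [hχ]
      rw [if_pos ⟨⟨hrc, h1.1, h1.2⟩, h2⟩])
    (fun c s h => by
      have hrc : (c, s) ∈ B := by
        by_contra hrc
        apply h
        simp only [hθB]
        rw [hB0 c s hrc, Finset.sum_eq_zero fun r _ => yT r c s fun h' => hrc h'.2.1, sub_zero]
      refine unsat (fun r => (s, r) ∈ C ∧ (r, c) ∈ A) (fun r => y r c s) M m t0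
        (fun r => y0 r c s) (fun r => yM r c s)
        ((lB c s).trans (hB c s hrc).2) hm (tB c s hrc) (fun r => χ r c s) (fun r h1 h2 => ?_)
        (fun r => χ0 r c s)
      simp only [hχ]
      rw [if_pos ⟨⟨h1.2, hrc, h1.1⟩, h2⟩])
    (fun s r h => by
      have hrc : (s, r) ∈ C := by
        by_contra hrc
        apply h
        simp only [hθC]
        rw [hC0 s r hrc, Finset.sum_eq_zero fun c _ => yT r c s fun h' => hrc h'.2.2, sub_zero]
      refine unsat (fun c => (r, c) ∈ A ∧ (c, s) ∈ B) (fun c => y r c s) M m t0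
        (fun c => y0 r c s) (fun c => yM r c s)
        ((lC s r).trans (hC s r hrc).2) hm (tC s r hrc) (fun c => χ r c s) (fun c h1 h2 => ?_)
        (fun c => χ0 r c s)
      simp only [hχ]
      rw [if_pos ⟨⟨h1.1, h1.2, hrc⟩, h2⟩])
  have hvy : ∑ r, ∑ c, ∑ s, χ r c s * (ω * (3 / 4 * (Nu θA θB θC ρ κ σ r c s /
        (ρ r ^ 3 + κ c ^ 3 + σ s ^ 3)))) * (ρ r ^ 3 + κ c ^ 3 + σ s ^ 3) =
      ∑ r, ρ r ^ 3 * ∑ c, ∑ s, y' r c s + (∑ c, κ c ^ 3 * ∑ r, ∑ s, y' r c s +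
        ∑ s, σ s ^ 3 * ∑ r, ∑ c, y' r c s) := by
    have g1 : ∑ r, ρ r ^ 3 * ∑ c, ∑ s, y' r c s = ∑ r, ∑ c, ∑ s, ρ r ^ 3 * y' r c s := by
      simp only [Finset.mul_sum]
    have g2 : ∑ c, κ c ^ 3 * ∑ r, ∑ s, y' r c s = ∑ r, ∑ c, ∑ s, κ c ^ 3 * y' r c s := by
      simp only [Finset.mul_sum]
      exact Finset.sum_comm
    have g3 : ∑ s, σ s ^ 3 * ∑ r, ∑ c, y' r c s = ∑ r, ∑ c, ∑ s, σ s ^ 3 * y' r c s := by
      simp only [Finset.mul_sum]
      exact Finset.sum_comm.trans (Finset.sum_congr rfl fun r _ => Finset.sum_comm)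
    rw [g1, g2, g3, ← Finset.sum_add_distrib, ← Finset.sum_add_distrib]
    refine Finset.sum_congr rfl fun r _ => ?_
    rw [← Finset.sum_add_distrib, ← Finset.sum_add_distrib]
    refine Finset.sum_congr rfl fun c _ => ?_
    rw [← Finset.sum_add_distrib, ← Finset.sum_add_distrib]
    refine Finset.sum_congr rfl fun s _ => ?_
    simp only [hy']
    ring
  rw [hvy] at hval
  have k1 : ∑ r, ρ r ^ 3 * tR r = ∑ r, ρ r ^ 3 * ∑ c, ∑ s, y' r c s -
      ∑ r, ρ r ^ 3 * (dR r - ρ r) := by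
    rw [← Finset.sum_sub_distrib]
    refine Finset.sum_congr rfl fun r _ => ?_
    simp only [htR, hρ]
    ring
  have k2 : ∑ r, κ r ^ 3 * tC' r = ∑ c, κ c ^ 3 * ∑ r, ∑ s, y' r c s -
      ∑ r, κ r ^ 3 * (dC r - κ r) := by
    rw [← Finset.sum_sub_distrib]
    refine Finset.sum_congr rfl fun r _ => ?_
    simp only [htC, hκ]
    ring
  have k3 : ∑ r, σ r ^ 3 * tS r = ∑ s, σ s ^ 3 * ∑ r, ∑ c, y' r c s -
      ∑ r, σ r ^ 3 * (dS r - σ r) := by
    rw [← Finset.sum_sub_distrib]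
    refine Finset.sum_congr rfl fun r _ => ?_
    simp only [htS, hσ]
    ring
  have up : ∀ (x d : Fin n → ℝ), (∀ r, 0 ≤ x r) → (∀ r, d r ≤ D) →
      ∑ r, x r ^ 3 * (d r - x r) ≤ D * ∑ r, x r ^ 3 - ∑ r, x r ^ 4 := fun x d hx hd => by
    rw [Finset.mul_sum, ← Finset.sum_sub_distrib]
    refine Finset.sum_le_sum fun r _ => ?_
    have a1 := pow_nonneg (hx r) 3
    have a2 := mul_le_mul_of_nonneg_left (hd r) a1
    nlinarith
  have u1 := up ρ dR pρ dR1
  have u2 := up κ dC pκ dC1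
  have u3 := up σ dS pσ dS1
  set W3 : ℝ := ∑ r, ρ r ^ 3 + ∑ c, κ c ^ 3 + ∑ s, σ s ^ 3 with hW
  have hW0 : 0 ≤ W3 := by
    have a1 : 0 ≤ ∑ r, ρ r ^ 3 := Finset.sum_nonneg fun r _ => pow_nonneg (pρ r) 3
    have a2 : 0 ≤ ∑ r, κ r ^ 3 := Finset.sum_nonneg fun r _ => pow_nonneg (pκ r) 3
    have a3 : 0 ≤ ∑ r, σ r ^ 3 := Finset.sum_nonneg fun r _ => pow_nonneg (pσ r) 3
    linarith
  have hDs : D * W3 ≤ 3 / 2 * ω * (t0 - m) * W3 := mul_le_mul_of_nonneg_right hD hW0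
  have q1 : 0 ≤ ∑ r, ρ r ^ 4 := Finset.sum_nonneg fun r _ => by positivity
  have q2 : 0 ≤ ∑ r, κ r ^ 4 := Finset.sum_nonneg fun r _ => by positivity
  have q3 : 0 ≤ ∑ r, σ r ^ 4 := Finset.sum_nonneg fun r _ => by positivity
  have hsum4 : ∑ r, ρ r ^ 4 + ∑ r, κ r ^ 4 + ∑ r, σ r ^ 4 ≤ 0 := by
    have hWe : D * W3 = D * ∑ r, ρ r ^ 3 + D * ∑ c, κ c ^ 3 + D * ∑ s, σ s ^ 3 := by
      rw [hW]
      ring
    rw [k1, k2, k3] at hfo
    linarith
  have zero4 : ∀ x : Fin n → ℝ, ∑ r, x r ^ 4 ≤ 0 → ∀ r, x r = 0 := fun x hx r => by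
    have h1 : ∑ r, x r ^ 4 = 0 := le_antisymm hx (Finset.sum_nonneg fun r _ => by positivity)
    have h2 := (Finset.sum_eq_zero_iff_of_nonneg fun r _ => by positivity).1 h1 r
      (Finset.mem_univ r)
    exact pow_eq_zero_iff (by norm_num) |>.1 h2
  have zρ := zero4 ρ (by linarith)
  have zκ := zero4 κ (by linarith)
  have zσ := zero4 σ (by linarith)
  have zero1 : ∀ x : Fin n → ℝ, (∀ r, 0 ≤ x r) → ∑ r, x r = 0 → ∀ r, x r = 0 :=
    fun x hx h r => (Finset.sum_eq_zero_iff_of_nonneg fun r _ => hx r).1 h r (Finset.mem_univ r)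
  refine ⟨y, y0, yM, yT, fun r c => ?_, fun c s => ?_, fun s r => ?_⟩
  · have := zero1 (fun c => θA r c) (pA r) ((tsA r).trans (zρ r)) c
    simp only [hθA] at this
    linarith
  · have := zero1 (fun s => θB c s) (pB c) ((tsB c).trans (zκ c)) s
    simp only [hθB] at this
    linarith
  · have := zero1 (fun r => θC s r) (pC s) ((tsC s).trans (zσ s)) r
    simp only [hθC] at this
    linarith

end

end Pool.Agent.Helper19.FR4
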