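import Pool.Agent.Helper19.FR4.Core

/-! Project FR4 (MP_953b28_co): the value of `y'`. -/

set_option autoImplicit false

namespace Pool.Agent.Helper19.FR4

open Finset

section

variable {n : ℕ}

/-- The numerator. -/
noncomputable def Nu (θA θB θC : Fin n → Fin n → ℝ) (ρ κ σ : Fin n → ℝ) (r c s : Fin n) : ℝ :=
  θA r c * (ρ r ^ 2 + κ c ^ 2) + θB c s * (κ c ^ 2 + σ s ^ 2) + θC s r * (σ s ^ 2 + ρ r ^ 2)

theorem pairSum (θ : Fin n → Fin n → ℝ) (ρ κ : Fin n → ℝ) (s1 : ∀ r, ∑ c, θ r c = ρ r)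
    (s2 : ∀ c, ∑ r, θ r c = κ c) :
    ∑ r, ∑ c, θ r c * (ρ r ^ 2 + κ c ^ 2) = ∑ r, ρ r ^ 3 + ∑ c, κ c ^ 3 := by
  have e1 : ∑ r, ∑ c, θ r c * ρ r ^ 2 = ∑ r, ρ r ^ 3 := by
    refine Finset.sum_congr rfl fun r _ => ?_
    rw [← Finset.sum_mul, s1]
    ring
  have e2 : ∑ r, ∑ c, θ r c * κ c ^ 2 = ∑ c, κ c ^ 3 := by
    rw [Finset.sum_comm]
    refine Finset.sum_congr rfl fun r _ => ?_
    rw [← Finset.sum_mul, s2]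
    ring
  rw [← e1, ← e2, ← Finset.sum_add_distrib]
  refine Finset.sum_congr rfl fun r _ => ?_
  rw [← Finset.sum_add_distrib]
  refine Finset.sum_congr rfl fun c _ => ?_
  ring

theorem lower (θ X : Fin n → Fin n → ℝ) (ρ κ : Fin n → ℝ) (τ : ℝ) (hθ : ∀ r c, 0 ≤ θ r c)
    (s1 : ∀ r, ∑ c, θ r c = ρ r) (s2 : ∀ c, ∑ r, θ r c = κ c)
    (hX : ∀ r c, θ r c ≠ 0 → τ ≤ X r c) :
    τ * (∑ r, ρ r ^ 3 + ∑ c, κ c ^ 3) ≤ ∑ r, ∑ c, θ r c * (ρ r ^ 2 + κ c ^ 2) * X r c := by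
  rw [← pairSum θ ρ κ s1 s2, Finset.mul_sum]
  refine Finset.sum_le_sum fun r _ => ?_
  rw [Finset.mul_sum]
  refine Finset.sum_le_sum fun c _ => ?_
  by_cases h : θ r c = 0
  · rw [h]
    simp
  · have h1 := hX r c h
    have h2 : 0 ≤ θ r c * (ρ r ^ 2 + κ c ^ 2) := mul_nonneg (hθ r c) (by positivity)
    nlinarith

theorem val (χ : Fin n → Fin n → Fin n → ℝ) (θA θB θC : Fin n → Fin n → ℝ)
    (ρ κ σ : Fin n → ℝ) (ω τ : ℝ) (hω : 0 ≤ ω) (hθA : ∀ r c, 0 ≤ θA r c)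
    (hθB : ∀ c s, 0 ≤ θB c s) (hθC : ∀ s r, 0 ≤ θC s r) (hρ : ∀ r, 0 ≤ ρ r)
    (hκ : ∀ c, 0 ≤ κ c) (hσ : ∀ s, 0 ≤ σ s)
    (sA : ∀ r, ∑ c, θA r c = ρ r) (sA' : ∀ c, ∑ r, θA r c = κ c)
    (sB : ∀ c, ∑ s, θB c s = κ c) (sB' : ∀ s, ∑ c, θB c s = σ s)
    (sC : ∀ s, ∑ r, θC s r = σ s) (sC' : ∀ r, ∑ s, θC s r = ρ r)
    (hA : ∀ r c, θA r c ≠ 0 → τ ≤ ∑ s, χ r c s) (hB : ∀ c s, θB c s ≠ 0 → τ ≤ ∑ r, χ r c s)
    (hC : ∀ s r, θC s r ≠ 0 → τ ≤ ∑ c, χ r c s) :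
    3 / 2 * ω * τ * (∑ r, ρ r ^ 3 + ∑ c, κ c ^ 3 + ∑ s, σ s ^ 3) ≤
      ∑ r, ∑ c, ∑ s, χ r c s * (ω * (3 / 4 * (Nu θA θB θC ρ κ σ r c s /
        (ρ r ^ 3 + κ c ^ 3 + σ s ^ 3)))) * (ρ r ^ 3 + κ c ^ 3 + σ s ^ 3) := by
  have e0 : ∀ r c s, χ r c s * (ω * (3 / 4 * (Nu θA θB θC ρ κ σ r c s /
        (ρ r ^ 3 + κ c ^ 3 + σ s ^ 3)))) * (ρ r ^ 3 + κ c ^ 3 + σ s ^ 3) =
      ω * (3 / 4) * (θA r c * (ρ r ^ 2 + κ c ^ 2) * χ r c s +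
        θB c s * (κ c ^ 2 + σ s ^ 2) * χ r c s + θC s r * (σ s ^ 2 + ρ r ^ 2) * χ r c s) := by
    intro r c s
    have key : Nu θA θB θC ρ κ σ r c s / (ρ r ^ 3 + κ c ^ 3 + σ s ^ 3) *
        (ρ r ^ 3 + κ c ^ 3 + σ s ^ 3) = Nu θA θB θC ρ κ σ r c s := by
      by_cases hU : ρ r ^ 3 + κ c ^ 3 + σ s ^ 3 = 0
      · have a1 : 0 ≤ ρ r ^ 3 := pow_nonneg (hρ r) 3
        have a2 : 0 ≤ κ c ^ 3 := pow_nonneg (hκ c) 3
        have a3 : 0 ≤ σ s ^ 3 := pow_nonneg (hσ s) 3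
        have b1 : ρ r = 0 := by
          have : ρ r ^ 3 = 0 := by linarith
          exact pow_eq_zero_iff (by norm_num) |>.1 this
        have b2 : κ c = 0 := by
          have : κ c ^ 3 = 0 := by linarith
          exact pow_eq_zero_iff (by norm_num) |>.1 this
        have b3 : σ s = 0 := by
          have : σ s ^ 3 = 0 := by linarith
          exact pow_eq_zero_iff (by norm_num) |>.1 this
        simp [Nu, b1, b2, b3]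
      · exact div_mul_cancel₀ _ hU
    calc _ = χ r c s * ω * (3 / 4) * (Nu θA θB θC ρ κ σ r c s /
          (ρ r ^ 3 + κ c ^ 3 + σ s ^ 3) * (ρ r ^ 3 + κ c ^ 3 + σ s ^ 3)) := by ring
      _ = χ r c s * ω * (3 / 4) * Nu θA θB θC ρ κ σ r c s := by rw [key]
      _ = _ := by
        unfold Nu
        ring
  simp only [e0]
  have e1 : ∑ r, ∑ c, ∑ s, ω * (3 / 4) * (θA r c * (ρ r ^ 2 + κ c ^ 2) * χ r c s +
        θB c s * (κ c ^ 2 + σ s ^ 2) * χ r c s + θC s r * (σ s ^ 2 + ρ r ^ 2) * χ r c s) =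
      ω * (3 / 4) * (∑ r, ∑ c, θA r c * (ρ r ^ 2 + κ c ^ 2) * ∑ s, χ r c s +
        ∑ c, ∑ s, θB c s * (κ c ^ 2 + σ s ^ 2) * ∑ r, χ r c s +
        ∑ s, ∑ r, θC s r * (σ s ^ 2 + ρ r ^ 2) * ∑ c, χ r c s) := by
    have f1 : ∑ r, ∑ c, θA r c * (ρ r ^ 2 + κ c ^ 2) * ∑ s, χ r c s =
        ∑ r, ∑ c, ∑ s, θA r c * (ρ r ^ 2 + κ c ^ 2) * χ r c s := by
      simp only [Finset.mul_sum]
    have f2 : ∑ c, ∑ s, θB c s * (κ c ^ 2 + σ s ^ 2) * ∑ r, χ r c s =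
        ∑ r, ∑ c, ∑ s, θB c s * (κ c ^ 2 + σ s ^ 2) * χ r c s := by
      simp only [Finset.mul_sum]
      exact (Finset.sum_congr rfl fun c _ => Finset.sum_comm).trans Finset.sum_comm
    have f3 : ∑ s, ∑ r, θC s r * (σ s ^ 2 + ρ r ^ 2) * ∑ c, χ r c s =
        ∑ r, ∑ c, ∑ s, θC s r * (σ s ^ 2 + ρ r ^ 2) * χ r c s := by
      simp only [Finset.mul_sum]
      exact Finset.sum_comm.trans (Finset.sum_congr rfl fun r _ => Finset.sum_comm)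
    rw [f1, f2, f3, ← Finset.sum_add_distrib, ← Finset.sum_add_distrib, Finset.mul_sum]
    refine Finset.sum_congr rfl fun r _ => ?_
    rw [← Finset.sum_add_distrib, ← Finset.sum_add_distrib, Finset.mul_sum]
    refine Finset.sum_congr rfl fun c _ => ?_
    rw [← Finset.sum_add_distrib, ← Finset.sum_add_distrib, Finset.mul_sum]
  rw [e1]
  have g1 := lower θA (fun r c => ∑ s, χ r c s) ρ κ τ hθA sA sA' hA
  have g2 := lower θB (fun c s => ∑ r, χ r c s) κ σ τ hθB sB sB' hB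
  have g3 := lower θC (fun s r => ∑ c, χ r c s) σ ρ τ hθC sC sC' hC
  have hsum : 2 * τ * (∑ r, ρ r ^ 3 + ∑ c, κ c ^ 3 + ∑ s, σ s ^ 3) ≤
      ∑ r, ∑ c, θA r c * (ρ r ^ 2 + κ c ^ 2) * ∑ s, χ r c s +
        ∑ c, ∑ s, θB c s * (κ c ^ 2 + σ s ^ 2) * ∑ r, χ r c s +
        ∑ s, ∑ r, θC s r * (σ s ^ 2 + ρ r ^ 2) * ∑ c, χ r c s := by linarith
  have hk : 0 ≤ ω * (3 / 4) := by positivity
  have := mul_le_mul_of_nonneg_left hsum hk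
  linarith

end

end Pool.Agent.Helper19.FR4
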